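import Pool.Agent.Helper27.BE.Defs

/-!
# BE-14: counting ordered monomials
-/

set_option autoImplicit false

namespace Pool.Agent.Helper71.BE

open Finset Pool.Agent.Helper27.BE

private theorem card_small (p r K : ℕ) (w : Fin r → ℕ) (hw : ∀ s, 1 ≤ w s) :
    Fintype.card {α : Fin r → Fin p // wt w α < K} ≤ (r + K).choose K := by
  classical
  have hle : ∀ α : {α : Fin r → Fin p // wt w α < K}, ∑ s, (α.1 s : ℕ) ≤ K := by
    intro α
    refine le_trans ?_ α.2.le
    refine Finset.sum_le_sum fun s _ => ?_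
    exact Nat.le_mul_of_pos_right _ (hw s)
  let f : {α : Fin r → Fin p // wt w α < K} → Sym (Option (Fin r)) K := fun α =>
    ⟨∑ s, Multiset.replicate (α.1 s : ℕ) (some s) +
      Multiset.replicate (K - ∑ s, (α.1 s : ℕ)) none, by
        rw [Multiset.card_add, Multiset.card_sum, Multiset.card_replicate]
        simp only [Multiset.card_replicate]
        exact Nat.add_sub_cancel' (hle α)⟩
  have hcount : ∀ α s, Multiset.count (some s) (f α).1 = (α.1 s : ℕ) := by
    intro α s
    simp only [f, Multiset.count_add, Multiset.count_sum', Multiset.count_replicate]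
    simp
  have hf : Function.Injective f := by
    intro α β h
    apply Subtype.ext
    funext s
    apply Fin.ext
    rw [← hcount α s, ← hcount β s, h]
  have := Fintype.card_le_of_injective f hf
  rw [Sym.card_sym_eq_choose, Fintype.card_option, Fintype.card_fin] at this
  have e : r + 1 + K - 1 = r + K := by omega
  rwa [e] at this

theorem finrank_quot_le {p : ℕ} [Fact p.Prime] {A : Type} [Ring A] [Algebra (ZMod p) A]
    (F : ℕ → Submodule (ZMod p) A) (h0 : F 0 = ⊤) {r : ℕ} (X : Fin r → A)
    (w : Fin r → ℕ) (hw : ∀ s, 1 ≤ w s)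
    (hF : ∀ k, F k ≤ Submodule.span (ZMod p)
      {a | ∃ α : Fin r → Fin p, wt w α = k ∧ a = mon X α} ⊔ F (k + 1)) (K : ℕ) :
    Module.finrank (ZMod p) (A ⧸ F K) ≤ (r + K).choose K ∧
    Module.finrank (ZMod p) (A ⧸ F K) ≤ p ^ r ∧ Module.Finite (ZMod p) (A ⧸ F K) := by
  classical
  have hspan : ∀ K, F 0 ≤ Submodule.span (ZMod p)
      {a | ∃ α : Fin r → Fin p, wt w α < K ∧ a = mon X α} ⊔ F K := by
    intro K
    induction K with
    | zero => exact le_sup_right
    | succ K ih =>
      refine ih.trans (sup_le ?_ ((hF K).trans (sup_le ?_ le_sup_right)))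
      · refine le_trans (Submodule.span_mono ?_) le_sup_left
        rintro a ⟨α, h1, h2⟩
        exact ⟨α, by omega, h2⟩
      · refine le_trans (Submodule.span_mono ?_) le_sup_left
        rintro a ⟨α, h1, h2⟩
        exact ⟨α, by omega, h2⟩
  let v : {α : Fin r → Fin p // wt w α < K} → A ⧸ F K := fun α => (F K).mkQ (mon X α.1)
  have hv : Submodule.span (ZMod p) (Set.range v) = ⊤ := by
    rw [eq_top_iff]
    have h1 : (⊤ : Submodule (ZMod p) (A ⧸ F K)) =
        Submodule.map (F K).mkQ (F 0) := by
      rw [h0, Submodule.map_top, Submodule.range_mkQ]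
    rw [h1]
    refine (Submodule.map_mono (hspan K)).trans ?_
    rw [Submodule.map_sup, Submodule.map_span]
    refine sup_le (Submodule.span_le.2 ?_) ?_
    · rintro _ ⟨a, ⟨α, h1, rfl⟩, rfl⟩
      exact Submodule.subset_span ⟨⟨α, h1⟩, rfl⟩
    · rintro _ ⟨y, hy, rfl⟩
      rw [Submodule.mkQ_apply, (Submodule.Quotient.mk_eq_zero (F K)).2 hy]
      exact Submodule.zero_mem _
  have hfin : Module.Finite (ZMod p) (A ⧸ F K) :=
    ⟨hv ▸ Submodule.fg_span (Set.finite_range v)⟩
  have hle := finrank_le_of_span_eq_top hv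
  refine ⟨hle.trans (card_small p r K w hw), hle.trans ?_, hfin⟩
  refine (Fintype.card_subtype_le _).trans ?_
  rw [Fintype.card_fun, Fintype.card_fin, Fintype.card_fin]

end Pool.Agent.Helper71.BE
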