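import Pool.Agent.Helper27.BE.Defs

/-!
# BE-16: the dimension of the span of `g - 1` modulo the next power of the augmentation ideal
-/

set_option autoImplicit false

namespace Pool.Agent.Helper71.BE

open Finset Pool.Agent.Helper27.BE

private theorem dlt_mul {p : ℕ} {B : Type} [Group B] (g h : B) :
    dlt p B (g * h) = dlt p B g + dlt p B h + dlt p B g * dlt p B h := by
  simp only [dlt, map_mul]
  noncomm_ring

private theorem dlt_one {p : ℕ} {B : Type} [Group B] : dlt p B (1 : B) = 0 := by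
  simp only [dlt, map_one, sub_self]

theorem dimSub_index {p : ℕ} [Fact p.Prime] {B : Type} [Group B] [Finite B] (i : ℕ)
    (E E' : Subgroup B) (hE : ∀ g, g ∈ E ↔ dlt p B g ∈ Fil p B i)
    (hE' : ∀ g, g ∈ E' ↔ dlt p B g ∈ Fil p B (i + 1))
    (hmul : Fil p B i * Fil p B i ≤ Fil p B (i + 1)) (T : Set B) (hT : ∀ g ∈ T, g ∈ E) (d : ℕ)
    (hd : E'.relIndex E = p ^ d) :
    Module.finrank (ZMod p) ((Submodule.span (ZMod p) (dlt p B '' T)) ⧸
      ((Fil p B (i + 1)).comap (Submodule.span (ZMod p) (dlt p B '' T)).subtype)) ≤ d ∧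
    (Module.finrank (ZMod p) ((Submodule.span (ZMod p) (dlt p B '' T)) ⧸
      ((Fil p B (i + 1)).comap (Submodule.span (ZMod p) (dlt p B '' T)).subtype)) = d →
      ∀ g ∈ E, dlt p B g ∈ Submodule.span (ZMod p) (dlt p B '' T) ⊔ Fil p B (i + 1)) := by
  classical
  have hp : p.Prime := Fact.out
  let A := MonoidAlgebra (ZMod p) B
  let N : Submodule (ZMod p) A := Fil p B (i + 1)
  let W : Submodule (ZMod p) A := Submodule.span (ZMod p) (dlt p B '' T)
  let φ : E →* Multiplicative (A ⧸ N) :=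
    { toFun := fun g => Multiplicative.ofAdd (N.mkQ (dlt p B g))
      map_one' := by
        rw [OneMemClass.coe_one, dlt_one, map_zero]
        rfl
      map_mul' := by
        intro g h
        have h0 : N.mkQ (dlt p B g * dlt p B h) = 0 := by
          rw [Submodule.mkQ_apply, Submodule.Quotient.mk_eq_zero]
          exact hmul (Submodule.mul_mem_mul ((hE _).1 g.2) ((hE _).1 h.2))
        have h1 : N.mkQ (dlt p B ((g * h : E) : B)) =
            N.mkQ (dlt p B g) + N.mkQ (dlt p B h) := by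
          rw [Subgroup.coe_mul, dlt_mul, map_add N.mkQ, map_add N.mkQ, h0, add_zero]
        rw [h1]
        rfl }
  have hker : φ.ker = E'.subgroupOf E := by
    ext g
    rw [MonoidHom.mem_ker, Subgroup.mem_subgroupOf, hE']
    change Multiplicative.ofAdd (N.mkQ (dlt p B g)) = 1 ↔ _
    rw [ofAdd_eq_one, Submodule.mkQ_apply, Submodule.Quotient.mk_eq_zero]
  have hcard : Nat.card φ.range = p ^ d := by
    rw [← hd, Subgroup.relIndex, ← hker, Subgroup.index_ker]
  let T' : Submodule (ZMod p) (A ⧸ N) :=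
    AddSubgroup.toZModSubmodule p (Subgroup.toAddSubgroup' φ.range)
  have hT' : ∀ x : A ⧸ N, x ∈ T' ↔ ∃ g ∈ E, N.mkQ (dlt p B g) = x := by
    intro x
    rw [AddSubgroup.mem_toZModSubmodule]
    change Multiplicative.ofAdd x ∈ φ.range ↔ _
    rw [MonoidHom.mem_range]
    constructor
    · rintro ⟨g, hg⟩
      exact ⟨g, g.2, hg⟩
    · rintro ⟨g, hg, h⟩
      exact ⟨⟨g, hg⟩, h⟩
  have hcT : Nat.card T' = p ^ d := hcard
  have : Finite T' := Nat.finite_of_card_ne_zero (by rw [hcT]; exact pow_ne_zero _ hp.ne_zero)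
  have hfr : Module.finrank (ZMod p) T' = d := by
    have := Module.natCard_eq_pow_finrank (K := ZMod p) (V := T')
    rw [hcT, Nat.card_zmod] at this
    exact (Nat.pow_right_injective hp.two_le this).symm
  have hle : W.map N.mkQ ≤ T' := by
    rw [Submodule.map_le_iff_le_comap, Submodule.span_le]
    rintro _ ⟨g, hg, rfl⟩
    exact (hT' _).2 ⟨g, hT g hg, rfl⟩
  have hrange : LinearMap.range (N.mkQ.comp W.subtype) = W.map N.mkQ := by
    rw [LinearMap.range_comp, Submodule.range_subtype]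
  have hk : LinearMap.ker (N.mkQ.comp W.subtype) = N.comap W.subtype := by
    rw [LinearMap.ker_comp, Submodule.ker_mkQ]
  have e : (W ⧸ N.comap W.subtype) ≃ₗ[ZMod p] W.map N.mkQ :=
    (Submodule.quotEquivOfEq _ _ hk.symm).trans
      ((LinearMap.quotKerEquivRange _).trans (LinearEquiv.ofEq _ _ hrange))
  have hfe : Module.finrank (ZMod p) (W ⧸ N.comap W.subtype) =
      Module.finrank (ZMod p) (W.map N.mkQ) := e.finrank_eq
  change Module.finrank (ZMod p) (W ⧸ N.comap W.subtype) ≤ d ∧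
    (Module.finrank (ZMod p) (W ⧸ N.comap W.subtype) = d → ∀ g ∈ E, dlt p B g ∈ W ⊔ N)
  rw [hfe]
  refine ⟨(Submodule.finrank_mono hle).trans hfr.le, fun heq g hg => ?_⟩
  have h1 : W.map N.mkQ = T' := Submodule.eq_of_le_of_finrank_eq hle (heq.trans hfr.symm)
  have h2 : N.mkQ (dlt p B g) ∈ W.map N.mkQ := by
    rw [h1]
    exact (hT' _).2 ⟨g, hg, rfl⟩
  obtain ⟨x, hx, hxe⟩ := h2
  have h3 : dlt p B g - x ∈ N := by
    rw [← Submodule.Quotient.mk_eq_zero N, Submodule.Quotient.mk_sub]
    rw [sub_eq_zero]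
    exact hxe.symm
  have h4 : dlt p B g = x + (dlt p B g - x) := by abel
  rw [h4]
  exact Submodule.add_mem_sup hx h3

end Pool.Agent.Helper71.BE
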