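import Pool.Agent.Helper27.BE.Defs

/-!
# BE-21: a numerical estimate
-/

set_option autoImplicit false

namespace Pool.Agent.Helper71.BE

open Finset Pool.Agent.Helper27.BE

private theorem choose_mul_le (n K : ℕ) (t : ℝ) (ht : 0 < t) :
    ((n + K).choose K : ℝ) * t ^ K ≤ (1 + t) ^ (n + K) := by
  have h := add_pow t 1 (n + K)
  rw [add_comm 1 t, h]
  have := Finset.single_le_sum (f := fun m => t ^ m * 1 ^ (n + K - m) * ((n + K).choose m : ℝ))
    (s := Finset.range (n + K + 1)) (fun i _ => by positivity)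
    (Finset.mem_range.2 (show K < n + K + 1 by omega))
  refine le_trans (le_of_eq ?_) this
  simp only [one_pow, mul_one]
  ring

theorem numeric (p : ℕ) (hp : 2 ≤ p) (q : ℕ) (c : ℝ) (hc : 1 < c) : ∃ δ : ℝ, 0 < δ ∧
    ∃ n₀ : ℕ, ∀ n, n₀ ≤ n → ∀ s k : ℕ, (s : ℝ) ≤ δ * n → (k : ℝ) ≤ δ * n →
      ((p ^ s * (n + (k * q + 1)).choose (k * q + 1) : ℕ) : ℝ) ^ 2 ≤ c ^ n := by
  obtain ⟨g, hg⟩ : ∃ g, g = Real.log c := ⟨_, rfl⟩
  have hg0 : 0 < g := hg ▸ Real.log_pos hc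
  obtain ⟨P, hP⟩ : ∃ P, P = Real.log p := ⟨_, rfl⟩
  have hP0 : 0 < P := hP ▸ Real.log_pos (by exact_mod_cast hp)
  obtain ⟨t, ht⟩ : ∃ t, t = min (g / 8) (1 / 2) := ⟨_, rfl⟩
  have ht0 : 0 < t := by rw [ht]; exact lt_min (by positivity) (by norm_num)
  have ht1 : t ≤ g / 8 := ht ▸ min_le_left _ _
  have ht2 : t ≤ 1 / 2 := ht ▸ min_le_right _ _
  obtain ⟨Λ, hΛ⟩ : ∃ Λ, Λ = - Real.log t := ⟨_, rfl⟩
  have hΛ0 : 0 ≤ Λ := by
    rw [hΛ]
    linarith [Real.log_nonpos ht0.le (by linarith)]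
  have hlog : Real.log (1 + t) ≤ g / 8 := by
    have := Real.log_le_sub_one_of_pos (show 0 < 1 + t by linarith)
    linarith
  obtain ⟨D, hD⟩ : ∃ D, D = 16 * (P + (q + 1) * (Λ + 1 + g)) := ⟨_, rfl⟩
  have hq0 : (0 : ℝ) ≤ q := Nat.cast_nonneg q
  have hD0 : 0 < D := by rw [hD]; positivity
  refine ⟨g / D, by positivity, ⌈1 / 2 + 4 * Λ / g⌉₊, ?_⟩
  intro n hn s k hs hk
  have hn' : 1 / 2 + 4 * Λ / g ≤ n := (Nat.le_ceil _).trans (by exact_mod_cast hn)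
  have hn0 : (0 : ℝ) ≤ n := Nat.cast_nonneg n
  have hδ : g / D * D = g := div_mul_cancel₀ g hD0.ne'
  have hδ0 : 0 < g / D := by positivity
  obtain ⟨δ, hδd⟩ : ∃ δ, δ = g / D := ⟨_, rfl⟩
  rw [← hδd] at hs hk hδ hδ0
  rw [hD] at hδ
  have hq1 : (0 : ℝ) ≤ (q + 1) * (Λ + 1 + g) := by positivity
  -- the two consequences of the choice of delta
  have hd1 : 2 * δ * P ≤ g / 8 := by
    have : 0 ≤ δ * ((q + 1) * (Λ + 1 + g)) := by positivity
    nlinarith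
  have hd2 : δ * q * (g / 4 + 2 * Λ) ≤ g / 8 := by
    have h1 : 0 ≤ δ * P := by positivity
    have h2 : q * (g / 4 + 2 * Λ) ≤ 2 * ((q + 1) * (Λ + 1 + g)) := by nlinarith
    have h3 : δ * (q * (g / 4 + 2 * Λ)) ≤ δ * (2 * ((q + 1) * (Λ + 1 + g))) :=
      mul_le_mul_of_nonneg_left h2 hδ0.le
    nlinarith
  obtain ⟨K, hK⟩ : ∃ K, K = k * q + 1 := ⟨_, rfl⟩
  have hKr : (K : ℝ) ≤ δ * n * q + 1 := by
    rw [hK]; push_cast
    have := mul_le_mul_of_nonneg_right hk hq0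
    linarith
  rw [← hK]
  have hch : (0 : ℝ) < ((n + K).choose K : ℝ) := by
    exact_mod_cast Nat.choose_pos (by omega)
  have hlch : Real.log ((n + K).choose K : ℝ) ≤ (n + K) * (g / 8) + K * Λ := by
    have h1 := Real.log_le_log (by positivity) (choose_mul_le n K t ht0)
    rw [Real.log_mul hch.ne' (by positivity), Real.log_pow, Real.log_pow] at h1
    have h2 : ((n + K : ℕ) : ℝ) * Real.log (1 + t) ≤ ((n + K : ℕ) : ℝ) * (g / 8) :=
      mul_le_mul_of_nonneg_left hlog (Nat.cast_nonneg _)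
    push_cast at h1 h2
    rw [hΛ]
    linarith
  have hpp : (0 : ℝ) < p := by exact_mod_cast (by omega : 0 < p)
  have hfin : Real.log (((p ^ s * (n + K).choose K : ℕ) : ℝ) ^ 2) ≤ Real.log (c ^ n) := by
    rw [Real.log_pow, Real.log_pow, ← hg]
    push_cast
    rw [Real.log_mul (by positivity) hch.ne', Real.log_pow, ← hP]
    have h1 : (s : ℝ) * P ≤ δ * n * P := mul_le_mul_of_nonneg_right hs hP0.le
    have h2 : (K : ℝ) * (g / 4 + 2 * Λ) ≤ (δ * n * q + 1) * (g / 4 + 2 * Λ) :=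
      mul_le_mul_of_nonneg_right hKr (by positivity)
    have h3 : n * (2 * δ * P) ≤ n * (g / 8) := mul_le_mul_of_nonneg_left hd1 hn0
    have h4 : n * (δ * q * (g / 4 + 2 * Λ)) ≤ n * (g / 8) := mul_le_mul_of_nonneg_left hd2 hn0
    have h5 : g / 4 + 2 * Λ ≤ n * (g / 2) := by
      have := mul_le_mul_of_nonneg_right hn' (show 0 ≤ g / 2 by positivity)
      have e : (1 / 2 + 4 * Λ / g) * (g / 2) = g / 4 + 2 * Λ := by
        field_simp
        ring
      linarith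
    nlinarith
  have hpos : (0 : ℝ) < ((p ^ s * (n + K).choose K : ℕ) : ℝ) := by
    push_cast
    exact mul_pos (pow_pos hpp s) hch
  exact (Real.log_le_log_iff (pow_pos hpos 2) (pow_pos (by linarith) n)).1 hfin

end Pool.Agent.Helper71.BE
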