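import Pool.Agent.Helper27.BE.Defs

/-!
# BE-9: pigeonhole for scales
-/

set_option autoImplicit false

namespace Pool.Agent.Helper71.BE

open Finset Pool.Agent.Helper27.BE

theorem exists_scale (η : ℝ) (hη : 0 < η) (κ₀ : ℕ) (hκ₀ : 2 ≤ κ₀) : ∃ κ₁ : ℕ,
    ∀ (n C : ℕ) (d : ℕ → ℕ), ∑ i ∈ Icc 1 C, d i ≤ n →
      ∃ κ, κ₀ ≤ κ ∧ κ ≤ κ₁ ∧
        (∑ i ∈ (Icc 1 C).filter (fun i => κ < d i ∧ d i ≤ κ ^ 5), (d i : ℝ)) ≤ η * n := by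
  obtain ⟨J, hJ⟩ := exists_nat_gt (1 / η)
  have hJ0 : 0 < J := by
    have : (0 : ℝ) < J := lt_trans (by positivity) hJ
    exact_mod_cast this
  have hJη : 1 < J * η := by
    rw [div_lt_iff₀ hη] at hJ
    exact hJ
  refine ⟨κ₀ ^ 5 ^ J, ?_⟩
  intro n C d hd
  by_contra hcon
  push Not at hcon
  have hmono : ∀ i j : ℕ, i ≤ j → κ₀ ^ 5 ^ i ≤ κ₀ ^ 5 ^ j := fun i j h =>
    Nat.pow_le_pow_right (by omega) (Nat.pow_le_pow_right (by norm_num) h)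
  have h1 : ∀ j ∈ range J, η * n <
      ∑ i ∈ (Icc 1 C).filter (fun i => κ₀ ^ 5 ^ j < d i ∧ d i ≤ (κ₀ ^ 5 ^ j) ^ 5), (d i : ℝ) := by
    intro j hj
    have hj' := mem_range.1 hj
    refine hcon (κ₀ ^ 5 ^ j) ?_ (hmono j J hj'.le)
    simpa using hmono 0 j (Nat.zero_le j)
  have hdisj : ∀ j ∈ range J, ∀ j' ∈ range J, j ≠ j' →
      Disjoint ((Icc 1 C).filter (fun i => κ₀ ^ 5 ^ j < d i ∧ d i ≤ (κ₀ ^ 5 ^ j) ^ 5))
        ((Icc 1 C).filter (fun i => κ₀ ^ 5 ^ j' < d i ∧ d i ≤ (κ₀ ^ 5 ^ j') ^ 5)) := by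
    intro j _ j' _ hne
    rw [Finset.disjoint_left]
    intro i hi hi'
    obtain ⟨-, a1, a2⟩ := mem_filter.1 hi
    obtain ⟨-, b1, b2⟩ := mem_filter.1 hi'
    rw [← pow_mul, ← pow_succ] at a2 b2
    rcases Nat.lt_or_gt_of_ne hne with h | h
    · have := hmono (j + 1) j' h
      omega
    · have := hmono (j' + 1) j h
      omega
  have h2 : ∑ j ∈ range J, (η * n) < ∑ j ∈ range J,
      ∑ i ∈ (Icc 1 C).filter (fun i => κ₀ ^ 5 ^ j < d i ∧ d i ≤ (κ₀ ^ 5 ^ j) ^ 5), (d i : ℝ) :=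
    Finset.sum_lt_sum_of_nonempty ⟨0, mem_range.2 hJ0⟩ h1
  rw [← Finset.sum_biUnion hdisj] at h2
  have h3 : ∑ i ∈ (range J).biUnion
      (fun j => (Icc 1 C).filter (fun i => κ₀ ^ 5 ^ j < d i ∧ d i ≤ (κ₀ ^ 5 ^ j) ^ 5)), (d i : ℝ) ≤
      ∑ i ∈ Icc 1 C, (d i : ℝ) := by
    refine Finset.sum_le_sum_of_subset_of_nonneg ?_ (fun i _ _ => Nat.cast_nonneg _)
    intro i hi
    obtain ⟨j, -, hj⟩ := mem_biUnion.1 hi
    exact (mem_filter.1 hj).1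
  have h4 : ∑ i ∈ Icc 1 C, (d i : ℝ) ≤ n := by exact_mod_cast hd
  rw [Finset.sum_const, card_range, nsmul_eq_mul] at h2
  have hn0 : (0 : ℝ) ≤ n := Nat.cast_nonneg n
  nlinarith

end Pool.Agent.Helper71.BE
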